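import Pool.Agent.W873.RS.Stm

set_option autoImplicit false

open MeasureTheory ProbabilityTheory Polynomial Filter Topology
open scoped ENNReal

namespace Pool.Agent.W755.RS.FAT

theorem main : Pool.Agent.W873.RS.FAT := by
  intro Ω _ μ N X B hX hev hB
  have hu : Tendsto (fun n : ℕ => 1 / ((n : ℝ) + 1)) atTop (𝓝[>] (0 : ℝ)) := by
    refine tendsto_nhdsWithin_iff.2 ⟨tendsto_one_div_add_atTop_nhds_zero_nat, ?_⟩
    exact Eventually.of_forall fun n => Set.mem_Ioi.2 (by positivity)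
  have hpos : ∀ n : ℕ, 0 < 1 / ((n : ℝ) + 1) := fun n => by positivity
  have hle : ∀ ω, N ω ≤ liminf (fun m : ℕ => liminf (fun n : ℕ =>
      X (1 / ((m : ℝ) + 1)) (1 / ((n : ℝ) + 1)) ω) atTop) atTop := by
    intro ω
    refine le_liminf_of_le (by isBoundedDefault) ?_
    filter_upwards [hu.eventually (hev ω)] with m hm
    exact le_liminf_of_le (by isBoundedDefault) (hu.eventually hm)
  calc ∫⁻ ω, N ω ∂μ
      ≤ ∫⁻ ω, liminf (fun m : ℕ => liminf (fun n : ℕ =>
          X (1 / ((m : ℝ) + 1)) (1 / ((n : ℝ) + 1)) ω) atTop) atTop ∂μ := lintegral_mono hle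
    _ ≤ liminf (fun m : ℕ => ∫⁻ ω, liminf (fun n : ℕ =>
          X (1 / ((m : ℝ) + 1)) (1 / ((n : ℝ) + 1)) ω) atTop ∂μ) atTop :=
        lintegral_liminf_le (fun m => Measurable.liminf (fun n => hX _ _))
    _ ≤ liminf (fun _ : ℕ => B) atTop := by
        refine liminf_le_liminf (Eventually.of_forall fun m => ?_)
        calc ∫⁻ ω, liminf (fun n : ℕ => X (1 / ((m : ℝ) + 1)) (1 / ((n : ℝ) + 1)) ω) atTop ∂μ
            ≤ liminf (fun n : ℕ => ∫⁻ ω, X (1 / ((m : ℝ) + 1)) (1 / ((n : ℝ) + 1)) ω ∂μ) atTop :=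
              lintegral_liminf_le (fun n => hX _ _)
          _ ≤ liminf (fun _ : ℕ => B) atTop :=
              liminf_le_liminf (Eventually.of_forall fun n => hB _ _ (hpos m) (hpos n))
          _ = B := liminf_const B
    _ = B := liminf_const B

end Pool.Agent.W755.RS.FAT
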